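import Pool.Agent.Run7.h700.PC.VanCan
import Pool.Agent.Run7.h700.PC.GenericSys

set_option autoImplicit false

open Finset Polynomial Pool.Agent.W432.TC Pool.Agent.W432.PC
open Pool.Agent.Y227.SS Pool.Agent.R340.SY Pool.Agent.Run7.h700.PC

/-!
# Factorial cancellation: systems of any rank with generic exponents at all the singular points but two

Let `y' = A y`, `A = ∑ j, A j / (z - α j)`, be any Fuchsian system with simple poles, of any rank `r`
(reducible or not), with rational exponents, any number of singular points and arbitrary accessory
parameters, over a domain `R` of finite type over `ℤ`, and let `A_0 = 1`, `A_{m+1} = A_m' + A_m A` and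
`Δ = ∏ j, (z - α j)`. Assume that the exponents at all the points but two, `z₁` and `z₂`, are generic in the
following sense: the integral linear combinations of the differences of the exponents at these points,
with bounded coefficients, have denominators with prime factors in a set `S` of large primes, while the
exponents at `z₁` and `z₂` have denominators without prime factors in `S`. Then for all large primes `p` in a positive proportion of the residue classes modulo every common denominator of
the exponents some entry of `(M Δ)^p A_p / p!` is not in `R[z]`, for every nonzero `M` in `R`; so the
hypothesis of the question fails and its implication holds, unless the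
exponents at `z₁` and at `z₂` are `c₁ + j / r` and `c₂ + j / r`, `j = 0, ..., r - 1`, modulo the integers.
This is sharp: if they are of this form, then for arbitrary rational exponents at the other points,
subject to the condition on the sum, there are systems with algebraic solutions, the direct images of
systems of rank one under the cyclic covering of degree `r` ramified over `z₁` and `z₂`.

The theorem also has a part for the case that there are more points outside the set `Z` of the
generic ones.

Proof. If `(M Δ)^p A_p / p!` has entries in `R[z]`, the `p`-curvature vanishes at all closed points of
characteristic `p` of an open set (starting results). If this happens too often, then the multiples of the exponents by all `a` prime to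
their common denominator are the weights of semistable parabolic bundles of parabolic degree zero (a
starting result), and the set of the torsion points with this property is covered by finitely many
torsion cosets which consist of weights of semistable bundles. If the exponents are generic on `Z`
the relations of the coset do not involve their differences. So the exponents at the points in `Z` can
be chosen equal to each other, in `r` different ways, and the inequalities for line subbundles only
involve the other points; if there are only two of them, all these inequalities are equalities.
-/

namespace Pool.Agent.Results.MP_c83bfd_ag.GenericExponents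

universe u

/-- For every number `n` of finite singular points and every rank `r` there are an `ε > 0` and a number
`B` with the following property. Let `A = ∑ j, A j / (z - α j)` be a system of rank `r` over a domain
`R` of characteristic zero and of finite type over `ℤ`, with `α i - α j` invertible for `i ≠ j` and
with rational exponents `e x l = expo lam phi x l` at the `n + 1` points `x` (the eigenvalues `lam j l`
of `A j` at `some j`, that is `α j`, and the negatives of the eigenvalues `phi l` of `∑ j, A j` at `none`,
that is infinity). Nothing is assumed on irreducibility or on the accessory parameters. Let `S` be a set of primes greater than `B` and let `Z` be a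
nonempty set of singular points, such that no denominator of an exponent at a point outside `Z` and no
denominator of the sum of the exponents at a point in `Z` has a prime factor in `S` (this can be achieved
by a twist by a system of rank one if it holds for the differences of the exponents outside `Z`). Assume
that the exponents at the points in `Z` are generic (`GenericAt`): for integers `μ x l`, `x ∈ Z`, of
absolute value at most `B`, with sum zero for every `x` and not all zero, the denominator of
`∑ μ x l * e x l` has a prime factor in `S`. Then one of the following holds.

(1) `CancelExcluded`: for every common denominator `N` of the exponents there is a set of at least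
`ε φ(N)` residue classes modulo `N` such that for every nonzero `M` in `R` and all large primes `p` in these
classes some entry of `(M Δ)^p A_p / p!` is not in `R[z]`; and there is no nonzero `M` such that all the
`(M Δ)^m A_m / m!` have entries in `R[z]`.

(2) For every common denominator `M` of the exponents and every `a` prime to `M`: `a e`, with the
exponents at the points in `Z` replaced by arbitrary real numbers with the same sums, are the weights of
semistable parabolic bundles (`FreeAt`); for every choice of one exponent `κ x` at every point the sum
of the fractional parts of all the `a (e x l - e x (κ x))`, `x ∉ Z`, is at least `r - 1` (`Wide`). The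
number of the triples `(x, k, l)`, `x ∉ Z`, such that `e x k - e x l` is not an integer is at least
`2 r (r - 1)`. If `z₁ ≠ z₂` and at all the points outside `Z`, except possibly `z₁` and `z₂`, the
differences of the exponents are integers, then `r ≤ 1`, or `z₁` and `z₂` are not in `Z` and the
exponents at `z₁` and those at `z₂` have differences which are multiples of `1 / r` and are not
integers (`FullCoset`): they are `c + j / r`, `j = 0, ..., r - 1`, modulo the integers. -/
theorem result (n r : ℕ) : ∃ (ε : ℝ) (B : ℕ), 0 < ε ∧
    ∀ (R : Type u) [CommRing R] [IsDomain R] [CharZero R] [Algebra.FiniteType ℤ R]
    (α : Fin n → R) (A : Fin n → Matrix (Fin r) (Fin r) R)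
    (lam : Fin n → Fin r → ℚ) (phi : Fin r → ℚ),
    (∀ i j, i ≠ j → IsUnit (α i - α j)) →
    (∀ j, HasExponents (A j) (lam j)) → HasExponents (∑ j, A j) phi →
    ∀ S : Set ℕ, (∀ p ∈ S, B < p) → ∀ Z : Finset (Option (Fin n)), Z.Nonempty →
    (∀ x, x ∉ Z → ∀ l, DenOut S (expo lam phi x l)) →
    (∀ x ∈ Z, DenOut S (∑ l, expo lam phi x l)) → GenericAt (expo lam phi) S B Z →
    CancelExcluded α A lam phi ε ∨
    ((∀ M : ℕ, 0 < M → (∀ j l, ∃ z : ℤ, (M : ℚ) * lam j l = z) →
        (∀ l, ∃ z : ℤ, (M : ℚ) * phi l = z) → ∀ a : ℤ, IsCoprime a (M : ℤ) →
        FreeAt (expo lam phi) Z a ∧ Wide (fun x l => (a : ℚ) * expo lam phi x l) Zᶜ) ∧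
      2 * (r * (r - 1)) ≤ ∑ x ∈ Zᶜ, nonint (expo lam phi x) ∧
      ∀ z₁ z₂ : Option (Fin n), z₁ ≠ z₂ →
        (∀ x, x ∉ Z → x ≠ z₁ → x ≠ z₂ → ∀ k l, (expo lam phi x k - expo lam phi x l).den = 1) →
        (z₁ ∉ Z ∧ FullCoset (expo lam phi z₁) ∧ z₂ ∉ Z ∧ FullCoset (expo lam phi z₂)) ∨ r ≤ 1) := by
  classical
  obtain ⟨ε, hε, hor⟩ := sys_or.{u} n r
  obtain ⟨B, hB⟩ := generic_concl n r
  refine ⟨ε, B, hε, ?_⟩
  intro R _ _ _ _ α A lam phi hα hlam hphi S hS Z hZ hout htr hgen
  rcases hor R α A lam phi hα hlam hphi with h | ⟨N, hN, hN1, hN2, hc⟩
  · exact Or.inl (h.cancel hε)
  · exact Or.inr (hB lam phi N hN hN1 hN2 hc S hS Z hZ hout htr hgen)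

end Pool.Agent.Results.MP_c83bfd_ag.GenericExponents
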